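import Mathlib
import Pool.Agent.Helper85.ProC.Goals

/-! Packet ACC: ascending chains of closed normal subgroups. -/

set_option autoImplicit false

namespace Pool.Agent.Helper50.ProC

open Pool.Agent.Helper85.ProP Pool.Agent.Helper30.ProP

universe u

/-- Finite `p`-groups: a proper inclusion of normal subgroups is detected by an invariant
character to `ℤ/p`. -/
theorem exists_char {p : ℕ} [hp : Fact p.Prime] {P : Type u} [Group P] [Finite P]
    (hP : IsPGroup p P) (X Y : Subgroup P) (hX : X.Normal) (hY : Y.Normal) (hYX : Y < X) :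
    ∃ χ : P → ZMod p, (∀ x ∈ X, ∀ y ∈ X, χ (x * y) = χ x + χ y) ∧
      (∀ g, ∀ x ∈ X, χ (g * x * g⁻¹) = χ x) ∧ (∀ y ∈ Y, χ y = 0) ∧ ∃ x ∈ X, χ x ≠ 0 := by
  classical
  obtain ⟨M, ⟨hMn, hYM, hMX⟩, hmax⟩ := Set.Finite.exists_maximal
    (s := {M : Subgroup P | M.Normal ∧ Y ≤ M ∧ M < X}) (Set.toFinite _) ⟨Y, hY, le_rfl, hYX⟩
  have hbig : ∀ N : Subgroup P, N.Normal → M < N → N ≤ X → N = X := by
    intro N hN hMN hNX
    by_contra hne
    have := hmax ⟨hN, hYM.trans hMN.le, lt_of_le_of_ne hNX hne⟩ hMN.le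
    exact absurd hMN (not_lt_of_ge this)
  have hPM : IsPGroup p (P ⧸ M) := hP.to_quotient M
  set X' : Subgroup (P ⧸ M) := X.map (QuotientGroup.mk' M) with hX'
  have hX'n : X'.Normal := hX.map _ (QuotientGroup.mk'_surjective M)
  obtain ⟨x0, hx0, hx0M⟩ := SetLike.exists_of_lt hMX
  have hnt : Nontrivial X' := by
    refine ⟨⟨⟨1, X'.one_mem⟩, ⟨(x0 : P ⧸ M), ⟨x0, hx0, rfl⟩⟩, ?_⟩⟩
    intro h
    have h1 := congrArg Subtype.val h
    have h2 : ((x0 : P) : P ⧸ M) = 1 := h1.symm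
    exact hx0M ((QuotientGroup.eq_one_iff x0).1 h2)
  -- a central element
  obtain ⟨z, hzX, hz1, hzc⟩ : ∃ z ∈ X', z ≠ 1 ∧ ∀ g : P ⧸ M, g * z * g⁻¹ = z := by
    have hc := (hPM.of_equiv ConjAct.toConjAct).exists_fixed_point_of_prime_dvd_card_of_fixed_point
      X'
    have hdvd : p ∣ Nat.card X' := by
      obtain ⟨n, hn0, hn⟩ := (hPM.to_subgroup X').nontrivial_iff_card.mp hnt
      rw [hn]
      exact dvd_pow_self _ (ne_of_gt hn0)
    obtain ⟨b, hb, hb1⟩ := hc hdvd (a := (1 : X')) (by intro g; simp)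
    refine ⟨b, b.2, fun h => hb1 (Subtype.ext h.symm), fun g => ?_⟩
    have := hb (ConjAct.toConjAct g)
    have h2 := congrArg Subtype.val this
    rw [ConjAct.Subgroup.val_conj_smul, ConjAct.smul_def, ConjAct.ofConjAct_toConjAct] at h2
    exact h2
  have hzn : ∀ k : ℤ, (Subgroup.zpowers (z ^ k)).Normal := by
    intro k
    constructor
    rintro _ ⟨j, rfl⟩ g
    refine ⟨j, ?_⟩
    simp only
    rw [← conj_zpow, ← conj_zpow, hzc g]
  obtain ⟨x1, hx1, hx1z⟩ := hzX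
  have hall : ∀ k : ℤ, z ^ k ≠ 1 → ∀ x ∈ X, ∃ j : ℤ, ((x : P) : P ⧸ M) = (z ^ k) ^ j := by
    intro k hk x hx
    have hN : (Subgroup.zpowers (z ^ k)).comap (QuotientGroup.mk' M) = X := by
      refine hbig _ ((hzn k).comap _) ?_ ?_
      · refine lt_of_le_of_ne ?_ ?_
        · intro m hm
          rw [Subgroup.mem_comap, QuotientGroup.mk'_apply, (QuotientGroup.eq_one_iff m).2 hm]
          exact Subgroup.one_mem _
        · intro heq
          have h1 : x1 ^ k ∈ (Subgroup.zpowers (z ^ k)).comap (QuotientGroup.mk' M) := by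
            rw [Subgroup.mem_comap, map_zpow, hx1z]
            exact Subgroup.mem_zpowers _
          rw [← heq] at h1
          apply hk
          rw [← hx1z, ← map_zpow]
          exact (QuotientGroup.eq_one_iff _).2 h1
      · rintro w hw
        rw [Subgroup.mem_comap] at hw
        obtain ⟨j, hj⟩ := hw
        simp only at hj
        rw [← hx1z, ← map_zpow, ← map_zpow] at hj
        have h2 : ((x1 ^ k) ^ j)⁻¹ * w ∈ M := QuotientGroup.eq.1 hj
        have h3 := X.mul_mem (X.zpow_mem (X.zpow_mem hx1 k) j) (hMX.le h2)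
        rwa [mul_inv_cancel_left] at h3
    have h1 : x ∈ (Subgroup.zpowers (z ^ k)).comap (QuotientGroup.mk' M) := by rw [hN]; exact hx
    obtain ⟨j, hj⟩ := h1
    exact ⟨j, hj.symm⟩
  have hzp : z ^ (p : ℤ) = 1 := by
    by_contra hne
    obtain ⟨j, hj⟩ := hall p hne x1 hx1
    have h1 : z = (z ^ (p : ℤ)) ^ j := by rw [← hj]; exact hx1z.symm
    have h2 : z ^ ((p : ℤ) * j - 1) = 1 := by
      rw [zpow_sub_one, zpow_mul, ← h1, mul_inv_cancel]
    have h3 : (orderOf z : ℤ) ∣ (p : ℤ) * j - 1 := orderOf_dvd_iff_zpow_eq_one.2 h2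
    obtain ⟨n, hn⟩ := IsPGroup.iff_orderOf.1 hPM z
    have hn0 : n ≠ 0 := by
      rintro rfl
      rw [pow_zero, orderOf_eq_one_iff] at hn
      exact hz1 hn
    have h4 : (p : ℤ) ∣ (orderOf z : ℤ) := by
      rw [hn]
      push_cast
      exact dvd_pow_self _ hn0
    have h5 : (p : ℤ) ∣ 1 := by
      have := (h4.trans h3)
      have h6 := dvd_sub (dvd_mul_right (p : ℤ) j) this
      simpa using h6
    have h7 : p ∣ 1 := by exact_mod_cast h5
    exact hp.out.one_lt.ne' (Nat.dvd_one.1 h7)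
  have hord : orderOf z = p := by
    refine orderOf_eq_prime ?_ hz1
    exact_mod_cast hzp
  -- the character
  have hx : ∀ x ∈ X, ∃ j : ℤ, ((x : P) : P ⧸ M) = z ^ j := by
    intro x hx
    obtain ⟨j, hj⟩ := hall 1 (by rw [zpow_one]; exact hz1) x hx
    exact ⟨j, by rw [hj, zpow_one]⟩
  let χ : P → ZMod p := fun w =>
    if h : ∃ k : ℤ, ((w : P) : P ⧸ M) = z ^ k then ((Classical.choose h : ℤ) : ZMod p) else 0
  have hχ : ∀ w (k : ℤ), ((w : P) : P ⧸ M) = z ^ k → χ w = (k : ZMod p) := by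
    intro w k hk
    have h : ∃ k : ℤ, ((w : P) : P ⧸ M) = z ^ k := ⟨k, hk⟩
    have h1 : χ w = ((Classical.choose h : ℤ) : ZMod p) := dif_pos h
    rw [h1]
    have h2 := Classical.choose_spec h
    have h3 := zpow_eq_zpow_iff_modEq.1 (hk.symm.trans h2)
    rw [hord] at h3
    exact ((ZMod.intCast_eq_intCast_iff _ _ _).2 h3).symm
  refine ⟨χ, ?_, ?_, ?_, ?_⟩
  · intro x hx' y hy'
    obtain ⟨a, ha⟩ := hx x hx'
    obtain ⟨b, hb⟩ := hx y hy'
    rw [hχ x a ha, hχ y b hb, hχ (x * y) (a + b)]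
    · push_cast; rfl
    · rw [QuotientGroup.mk_mul, ha, hb, zpow_add]
  · intro g x hx'
    obtain ⟨a, ha⟩ := hx x hx'
    rw [hχ x a ha, hχ _ a]
    rw [QuotientGroup.mk_mul, QuotientGroup.mk_mul, QuotientGroup.mk_inv, ha, ← conj_zpow, hzc]
  · intro y hy
    have := hχ y 0 (by rw [zpow_zero]; exact (QuotientGroup.eq_one_iff y).2 (hYM hy))
    rw [this]; simp
  · refine ⟨x1, hx1, ?_⟩
    rw [hχ x1 1 (by rw [zpow_one]; exact hx1z)]
    simp

section

variable {G : Type u} [Group G] [TopologicalSpace G] [IsTopologicalGroup G] [CompactSpace G]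
  [T2Space G] [TotallyDisconnectedSpace G]

/-- the same for pro-`p` groups -/
theorem exists_char_pro {p : ℕ} [hp : Fact p.Prime] (hG : PP p G) (X Y : Subgroup G)
    (hX : X.Normal) (hY : Y.Normal) (hYc : IsClosed (Y : Set G)) (hYX : Y < X) :
    ∃ χ : G → ZMod p, IsLocallyConstant χ ∧ (∀ x ∈ X, ∀ y ∈ X, χ (x * y) = χ x + χ y) ∧
      (∀ g, ∀ x ∈ X, χ (g * x * g⁻¹) = χ x) ∧ (∀ y ∈ Y, χ y = 0) ∧ ∃ x ∈ X, χ x ≠ 0 := by
  obtain ⟨k, hkX, hkY⟩ := SetLike.exists_of_lt hYX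
  have hW : IsOpen {x : G | k * x⁻¹ ∉ Y} := by
    have h1 : IsOpen ((Y : Set G)ᶜ) := hYc.isOpen_compl
    exact h1.preimage (f := fun x : G => k * x⁻¹) (by fun_prop)
  obtain ⟨O, hO⟩ := ProfiniteGrp.exist_openNormalSubgroup_sub_open_nhds_of_one hW
    (show (1 : G) ∈ {x : G | k * x⁻¹ ∉ Y} by simpa using hkY)
  have hOn : O.toSubgroup.Normal := O.isNormal'
  obtain ⟨n, hn⟩ := hG O.toSubgroup O.isNormal' O.isOpen'
  have hcard : Nat.card (G ⧸ O.toSubgroup) = p ^ n := hn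
  have hfin : Finite (G ⧸ O.toSubgroup) := by
    refine Nat.finite_of_card_ne_zero ?_
    rw [hcard]
    exact pow_ne_zero _ hp.out.ne_zero
  have hP : IsPGroup p (G ⧸ O.toSubgroup) := IsPGroup.of_card hcard
  have hlt : Y.map (QuotientGroup.mk' O.toSubgroup) < X.map (QuotientGroup.mk' O.toSubgroup) := by
    refine lt_of_le_of_ne (Subgroup.map_mono hYX.le) ?_
    intro heq
    have h1 : QuotientGroup.mk' O.toSubgroup k ∈ X.map (QuotientGroup.mk' O.toSubgroup) :=
      ⟨k, hkX, rfl⟩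
    rw [← heq] at h1
    obtain ⟨y, hy, hyk⟩ := h1
    have h2 : y⁻¹ * k ∈ O.toSubgroup := QuotientGroup.eq.1 hyk
    have h3 := hO h2
    apply h3
    have h4 : k * (y⁻¹ * k)⁻¹ = y := by group
    rw [h4]
    exact hy
  obtain ⟨χ, h1, h2, h3, x', ⟨x, hx, rfl⟩, hxx⟩ := exists_char hP _ _
    (hX.map _ (QuotientGroup.mk'_surjective _)) (hY.map _ (QuotientGroup.mk'_surjective _)) hlt
  have hdisc : DiscreteTopology (G ⧸ O.toSubgroup) :=
    QuotientGroup.discreteTopology O.isOpen'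
  refine ⟨fun g => χ (QuotientGroup.mk' O.toSubgroup g), ?_, ?_, ?_, ?_, x, hx, hxx⟩
  · exact (IsLocallyConstant.of_discrete χ).comp_continuous QuotientGroup.continuous_mk
  · intro a ha b hb
    simp only
    rw [map_mul]
    exact h1 _ ⟨a, ha, rfl⟩ _ ⟨b, hb, rfl⟩
  · intro g a ha
    simp only
    rw [map_mul, map_mul, map_inv]
    exact h2 _ _ ⟨a, ha, rfl⟩
  · intro y hy
    exact h3 _ ⟨y, hy, rfl⟩

end

theorem stmtACC : Pool.Agent.Helper85.ProC.StmtACC.{u} := by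
  classical
  intro p _ G _ _ _ _ _ _ hG _ K hK T hmono hTn hTc hKT
  let S : Subgroup G := ⨆ e, T e
  let K' : Subgroup G := S.topologicalClosure
  have hTS : ∀ e, T e ≤ S := fun e => le_iSup T e
  have hSK : S ≤ K' := Subgroup.le_topologicalClosure S
  have hTK : ∀ e, T e ≤ K' := fun e => (hTS e).trans hSK
  have hSn : S.Normal := by
    constructor
    intro x hx g
    obtain ⟨e, he⟩ := (Subgroup.mem_iSup_of_directed hmono.directed_le).1 hx
    exact hTS e ((hTn e).conj_mem x he g)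
  have hKn : K'.Normal := Subgroup.is_normal_topologicalClosure S
  have hKc : IsClosed (K' : Set G) := Subgroup.isClosed_topologicalClosure S
  obtain ⟨F, hFK, hF⟩ := hK K' hKn hKc ((hKT 0).trans (hTK 0))
  suffices h : ∃ e, T e = K' by
    obtain ⟨e, he⟩ := h
    refine ⟨e, fun e' hee => le_antisymm ?_ (hmono hee)⟩
    rw [he]
    exact hTK e'
  by_contra hcon
  push Not at hcon
  have hχ : ∀ e, ∃ χ : G → ZMod p, IsLocallyConstant χ ∧
      (∀ x ∈ K', ∀ y ∈ K', χ (x * y) = χ x + χ y) ∧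
      (∀ g, ∀ x ∈ K', χ (g * x * g⁻¹) = χ x) ∧ (∀ y ∈ T e, χ y = 0) ∧ ∃ x ∈ K', χ x ≠ 0 :=
    fun e => exists_char_pro hG K' (T e) hKn (hTn e) (hTc e) (lt_of_le_of_ne (hTK e) (hcon e))
  choose χ hl hadd hconj hT0 hne using hχ
  obtain ⟨v, hv⟩ := Finite.exists_infinite_fiber (fun e : ℕ => fun f : F => χ e (f : G))
  have hinf : Set.Infinite ((fun e : ℕ => fun f : F => χ e (f : G)) ⁻¹' {v}) :=
    Set.infinite_coe_iff.1 hv
  obtain ⟨e0, he0⟩ := hinf.nonempty
  have hone : ∀ e, χ e 1 = 0 := fun e => hT0 e 1 (T e).one_mem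
  have hinv : ∀ e, ∀ x ∈ K', χ e x⁻¹ = - χ e x := by
    intro e x hx
    have h := hadd e x hx x⁻¹ (K'.inv_mem hx)
    rw [mul_inv_cancel, hone] at h
    exact (neg_eq_of_add_eq_zero_right h.symm).symm
  have hagree : ∀ e, (fun f : F => χ e (f : G)) = v → ∀ x ∈ K', χ e x = χ e0 x := by
    intro e he
    let H : Subgroup G :=
      { carrier := {x | x ∈ K' ∧ χ e x = χ e0 x}
        one_mem' := ⟨K'.one_mem, by rw [hone, hone]⟩
        mul_mem' := by
          rintro a b ⟨ha, ha'⟩ ⟨hb, hb'⟩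
          exact ⟨K'.mul_mem ha hb, by rw [hadd e a ha b hb, hadd e0 a ha b hb, ha', hb']⟩
        inv_mem' := by
          rintro a ⟨ha, ha'⟩
          exact ⟨K'.inv_mem ha, by rw [hinv e a ha, hinv e0 a ha, ha']⟩ }
    have hHn : H.Normal := by
      constructor
      rintro x ⟨hx, hx'⟩ g
      exact ⟨hKn.conj_mem x hx g, by rw [hconj e g x hx, hconj e0 g x hx, hx']⟩
    have hHc : IsClosed (H : Set G) := by
      have h1 : IsClosed {x : G | (χ e - χ e0) x = 0} :=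
        ((hl e).sub (hl e0)).isClosed_fiber 0
      have h2 : (H : Set G) = (K' : Set G) ∩ {x : G | (χ e - χ e0) x = 0} := by
        ext x
        simp only [Set.mem_inter_iff, Set.mem_ofPred_eq, Pi.sub_apply, sub_eq_zero]
        rfl
      rw [h2]
      exact hKc.inter h1
    have hFH : (F : Set G) ⊆ (H : Set G) := by
      intro f hf
      refine ⟨hFK hf, ?_⟩
      have h1 := congrFun he ⟨f, hf⟩
      have h2 := congrFun (show (fun f : F => χ e0 (f : G)) = v from he0) ⟨f, hf⟩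
      exact h1.trans h2.symm
    intro x hx
    exact ((hF H hHn hHc hFH) hx).2
  obtain ⟨x, hx, hx0⟩ := hne e0
  let H0 : Subgroup G :=
    { carrier := {x | x ∈ K' ∧ χ e0 x = 0}
      one_mem' := ⟨K'.one_mem, hone e0⟩
      mul_mem' := by
        rintro a b ⟨ha, ha'⟩ ⟨hb, hb'⟩
        exact ⟨K'.mul_mem ha hb, by rw [hadd e0 a ha b hb, ha', hb', add_zero]⟩
      inv_mem' := by
        rintro a ⟨ha, ha'⟩
        exact ⟨K'.inv_mem ha, by rw [hinv e0 a ha, ha', neg_zero]⟩ }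
  have hH0c : IsClosed (H0 : Set G) := by
    have h1 : IsClosed {x : G | χ e0 x = 0} := (hl e0).isClosed_fiber 0
    have h2 : (H0 : Set G) = (K' : Set G) ∩ {x : G | χ e0 x = 0} := rfl
    rw [h2]
    exact hKc.inter h1
  have hSH : S ≤ H0 := by
    refine iSup_le (fun n y hy => ?_)
    obtain ⟨e, he, hne'⟩ := hinf.exists_gt n
    have hyT : y ∈ T e := hmono hne'.le hy
    refine ⟨hTK n hy, ?_⟩
    rw [← hagree e he y (hTK n hy)]
    exact hT0 e y hyT
  have hKH : K' ≤ H0 := Subgroup.topologicalClosure_minimal _ hSH hH0c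
  exact hx0 (hKH hx).2

end Pool.Agent.Helper50.ProC
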